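import Pool.Agent.helper54.UG.Spec
import Pool.Agent.helper75.PR.C2

/-!
# Row ug:LG (MP_a2a22c_al): the polynomial logarithm
-/

set_option autoImplicit false

namespace Pool.Agent.UG

open Matrix Pool.Agent.H48SL
open Pool.Agent.PR (C2_BC C2_expand C2_step C2_unique C2_BC_add C2_BC_mul C2_BC_pow C2_BC_self)

/-- the universal nilpotent element of order `m` -/
abbrev LG_A (m : ℕ) : Type := Polynomial ℚ ⧸ Ideal.span {(Polynomial.X : Polynomial ℚ) ^ m}

theorem LG_univ (m : ℕ) (hm : 2 ≤ m) : ∃ P : Polynomial ℚ, Polynomial.X ^ 2 ∣ P - Polynomial.X ∧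
    IsNilpotent (Ideal.Quotient.mk (Ideal.span {(Polynomial.X : Polynomial ℚ) ^ m}) P) ∧
    IsNilpotent.exp (Ideal.Quotient.mk (Ideal.span {(Polynomial.X : Polynomial ℚ) ^ m}) P) =
      1 + Ideal.Quotient.mk (Ideal.span {(Polynomial.X : Polynomial ℚ) ^ m}) Polynomial.X := by
  obtain ⟨x, hx⟩ : ∃ x : LG_A m, x = Ideal.Quotient.mk _ Polynomial.X := ⟨_, rfl⟩
  have hxm : x ^ m = 0 := by
    rw [hx, ← map_pow, Ideal.Quotient.eq_zero_iff_mem]
    exact Ideal.subset_span rfl
  obtain ⟨N, a, c, ha, hc, hN, hE⟩ := C2_step x ⟨m, hxm⟩ m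
  have hE' : IsNilpotent.exp N = 1 + x := by
    rw [hE, pow_succ, hxm, zero_mul, zero_mul, add_zero]
  have hNn : IsNilpotent N := by
    rw [hN]
    exact (Commute.all x a).isNilpotent_mul_right ⟨m, hxm⟩
  obtain ⟨s, hs, -⟩ := C2_expand N hNn
  have hNx : N - x = x ^ 2 * -(a ^ 2 * s) := by
    have h1 : x = N + N ^ 2 * s := by
      have : (1 : LG_A m) + x = 1 + (N + N ^ 2 * s) := by rw [← hE', hs, add_assoc]
      exact add_left_cancel this
    have h2 : N ^ 2 = x ^ 2 * a ^ 2 := by rw [hN, mul_pow]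
    linear_combination -h1 - s * h2
  obtain ⟨P, hP⟩ := Ideal.Quotient.mk_surjective N
  obtain ⟨Q, hQ⟩ := Ideal.Quotient.mk_surjective (-(a ^ 2 * s))
  refine ⟨P, ?_, by rw [hP]; exact hNn, by rw [hP, hE', hx]⟩
  have h3 : Ideal.Quotient.mk (Ideal.span {(Polynomial.X : Polynomial ℚ) ^ m})
      (P - Polynomial.X - Polynomial.X ^ 2 * Q) = 0 := by
    rw [map_sub, map_sub, map_mul, map_pow, hP, hQ, ← hx, hNx, sub_self]
  rw [Ideal.Quotient.eq_zero_iff_mem, Ideal.mem_span_singleton] at h3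
  have h4 : (Polynomial.X : Polynomial ℚ) ^ 2 ∣ P - Polynomial.X - Polynomial.X ^ 2 * Q :=
    (pow_dvd_pow _ hm).trans h3
  have h5 := h4.add (dvd_mul_right ((Polynomial.X : Polynomial ℚ) ^ 2) Q)
  rwa [sub_add_cancel] at h5

/-- powers of nilpotent matrices -/
theorem LG_pow {n : ℕ} {N : MQ n} (h : IsNilpotent N) : N ^ n = 0 := by
  have h1 := Matrix.isNilpotent_charpoly_sub_pow_of_isNilpotent h
  have h2 := h1.eq_zero
  rw [sub_eq_zero] at h2
  have h3 := Matrix.aeval_self_charpoly N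
  rw [h2, map_pow, Polynomial.aeval_X, Fintype.card_fin] at h3
  exact h3

theorem LG_BC {n : ℕ} (X : MQ n) (P : Polynomial ℚ) : C2_BC X (Polynomial.aeval X P) := by
  intro Y hY
  induction P using Polynomial.induction_on with
  | C c =>
    rw [Polynomial.aeval_C]
    exact (Algebra.commutes c Y).symm
  | add p q hp hq =>
    rw [map_add]
    exact hp.add_right hq
  | monomial k c _ =>
    rw [map_mul, map_pow, Polynomial.aeval_X, Polynomial.aeval_C]
    exact Commute.mul_right (Algebra.commutes c Y).symm (hY.pow_right _)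

theorem LG (_hEXJ : EXJ_stmt) : LG_stmt := by
  intro n
  obtain ⟨P, hP1, hP2, hP3⟩ := LG_univ (n + 2) (by omega)
  have key : ∀ N : MQ n, IsNilpotent N → IsNilpotent (Polynomial.aeval N P) ∧
      IsNilpotent.exp (Polynomial.aeval N P) = 1 + N := by
    intro N hN
    have hNm : N ^ (n + 2) = 0 := pow_eq_zero_of_le (by omega) (LG_pow hN)
    let f : LG_A (n + 2) →+* MQ n := Ideal.Quotient.lift
      (Ideal.span {(Polynomial.X : Polynomial ℚ) ^ (n + 2)})
      ((Polynomial.aeval N : Polynomial ℚ →ₐ[ℚ] MQ n) : Polynomial ℚ →+* MQ n) (by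
        intro a ha
        rw [Ideal.mem_span_singleton] at ha
        obtain ⟨b, rfl⟩ := ha
        show Polynomial.aeval N (Polynomial.X ^ (n + 2) * b) = 0
        rw [map_mul, map_pow, Polynomial.aeval_X, hNm, zero_mul])
    have hf : ∀ p, f (Ideal.Quotient.mk _ p) = Polynomial.aeval N p := fun p => rfl
    constructor
    · rw [← hf]
      exact hP2.map f
    · rw [← hf, ← IsNilpotent.map_exp hP2 f, hP3, map_add, map_one, hf, Polynomial.aeval_X]
  refine ⟨P, hP1, fun N hN => (key N hN).2, fun Z hZ => ?_⟩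
  have hN : IsNilpotent (IsNilpotent.exp Z - 1) := IsNilpotent.isNilpotent_exp_sub_one hZ
  obtain ⟨h1, h2⟩ := key _ hN
  exact (C2_unique (LG_BC _ P) h1 h2 hZ (by abel)).symm

end Pool.Agent.UG
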